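import Pool.Agent.H15.LU.Targets

/-!
# MP_812e67_ag, module GRO: the discriminant along the curve `ψ (qq a ν)` is `O(ν ^ 18)`
-/

set_option autoImplicit false

namespace Pool.Agent.H7.LU

open Pool.Agent.H15.LU Filter Topology Asymptotics Polynomial

/-- the value of the discriminant -/
lemma ww_eval (c : ℂ) (Q R : ℂ[X][X]) (y x : ℂ) :
    (ww c Q R).evalEval y x = Q.evalEval y x ^ 2 - 4 * (y + c) * R.evalEval y x := by
  unfold ww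
  rw [evalEval_sub, evalEval_mul, evalEval_pow, evalEval_C]
  simp

lemma qq_zero (a : ℂ) (ν : ℝ) : qq a ν 0 = a * (ν : ℂ) ^ 6 := rfl
lemma qq_one (a : ℂ) (ν : ℝ) : qq a ν 1 = (ν : ℂ) ^ 2 := rfl
lemma qq_two (a : ℂ) (ν : ℝ) : qq a ν 2 = 0 := rfl

/-- powers of the variable -/
lemma pow_isBigO {m n : ℕ} (h : m ≤ n) :
    (fun ν : ℝ => ν ^ n) =O[𝓝[>] 0] fun ν : ℝ => ν ^ m := by
  refine IsBigO.of_bound 1 ?_
  have h1 : ∀ᶠ ν : ℝ in 𝓝[>] 0, ν ∈ Set.Ioc (0 : ℝ) 1 := by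
    exact Ioc_mem_nhdsGT one_pos
  filter_upwards [h1] with ν hν
  rw [one_mul, norm_pow, norm_pow, Real.norm_eq_abs, abs_of_pos hν.1]
  exact pow_le_pow_of_le_one hν.1.le hν.2 h

lemma cast_pow_isBigO (n : ℕ) :
    (fun ν : ℝ => (ν : ℂ) ^ n) =O[𝓝[>] 0] fun ν : ℝ => ν ^ n := by
  refine IsBigO.of_bound 1 (Eventually.of_forall fun ν => ?_)
  rw [one_mul, norm_pow, norm_pow, Complex.norm_real]

lemma const_mul_pow_isBigO (a : ℂ) (n : ℕ) :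
    (fun ν : ℝ => a * (ν : ℂ) ^ n) =O[𝓝[>] 0] fun ν : ℝ => ν ^ n :=
  (cast_pow_isBigO n).const_mul_left a

lemma qq_isBigO (a : ℂ) : (fun ν : ℝ => qq a ν) =O[𝓝[>] 0] fun ν : ℝ => ν ^ 2 := by
  rw [isBigO_pi]
  intro i
  fin_cases i
  · exact (const_mul_pow_isBigO a 6).trans (pow_isBigO (by norm_num))
  · exact cast_pow_isBigO 2
  · exact isBigO_zero _ _

lemma coord_isBigO {f : ℝ → Fin 3 → ℂ} {g : ℝ → ℝ} (h : f =O[𝓝[>] 0] g) (i : Fin 3) :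
    (fun ν => f ν i) =O[𝓝[>] 0] g := (isBigO_pi.1 h) i

lemma tendsto_of_isBigO {f : ℝ → Fin 3 → ℂ} (h : f =O[𝓝[>] 0] fun ν : ℝ => ν ^ 2) :
    Tendsto f (𝓝[>] 0) (𝓝 0) := by
  refine h.trans_tendsto ?_
  have : Tendsto (fun ν : ℝ => ν ^ 2) (𝓝 0) (𝓝 0) := by
    have := (continuous_pow 2 : Continuous fun ν : ℝ => ν ^ 2).tendsto 0
    simpa using this
  exact this.mono_left nhdsWithin_le_nhds

/-- `G30` along a curve with coordinates of orders `6, 2, 9` -/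
lemma G30_isBigO (b d : ℂ) {w : ℝ → Fin 3 → ℂ}
    (h0 : (fun ν => w ν 0) =O[𝓝[>] 0] fun ν : ℝ => ν ^ 6)
    (h1 : (fun ν => w ν 1) =O[𝓝[>] 0] fun ν : ℝ => ν ^ 2)
    (h2 : (fun ν => w ν 2) =O[𝓝[>] 0] fun ν : ℝ => ν ^ 9) :
    (fun ν => G30 b d (w ν)) =O[𝓝[>] 0] fun ν : ℝ => ν ^ 18 := by
  have e1 : (fun ν => w ν 0 ^ 3) =O[𝓝[>] 0] fun ν : ℝ => ν ^ 18 := by
    refine (h0.pow 3).congr_right fun ν => ?_
    ring
  have e2 : (fun ν => b * w ν 0 ^ 2 * w ν 1 ^ 3) =O[𝓝[>] 0] fun ν : ℝ => ν ^ 18 := by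
    refine (((h0.pow 2).const_mul_left b).mul (h1.pow 3)).congr_right fun ν => ?_
    ring
  have e3 : (fun ν => w ν 1 ^ 9) =O[𝓝[>] 0] fun ν : ℝ => ν ^ 18 := by
    refine (h1.pow 9).congr_right fun ν => ?_
    ring
  have e4 : (fun ν => d * w ν 0 * w ν 1 ^ 7) =O[𝓝[>] 0] fun ν : ℝ => ν ^ 18 := by
    have h := ((h0.const_mul_left d).mul (h1.pow 7))
    refine (h.congr_right (g₂ := fun ν : ℝ => ν ^ 20) fun ν => ?_).trans (pow_isBigO (by norm_num))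
    ring
  have e5 : (fun ν => w ν 2 ^ 2) =O[𝓝[>] 0] fun ν : ℝ => ν ^ 18 := by
    refine (h2.pow 2).congr_right fun ν => ?_
    ring
  exact (((e1.add e2).add e3).add e4).add e5

/-- Module GRO. -/
theorem pf_GRO : T_GRO := by
  intro c Q R b d χ ψ hDat hInv a
  obtain ⟨⟨hχa, hχ0, -⟩, hM⟩ := hDat
  obtain ⟨⟨hψa, hψ0, -⟩, hχψ, -⟩ := hInv
  obtain ⟨q, hq⟩ : ∃ q : ℝ → Fin 3 → ℂ, q = fun ν => qq a ν := ⟨_, rfl⟩
  obtain ⟨p, hp⟩ : ∃ p : ℝ → Fin 3 → ℂ, p = fun ν => ψ (q ν) := ⟨_, rfl⟩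
  have hqO : q =O[𝓝[>] 0] fun ν : ℝ => ν ^ 2 := by
    rw [hq]
    exact qq_isBigO a
  have hq0 : Tendsto q (𝓝[>] 0) (𝓝 0) := tendsto_of_isBigO hqO
  -- `p = O(ν²)`
  have hpO : p =O[𝓝[>] 0] fun ν : ℝ => ν ^ 2 := by
    have h1 : (fun x => ψ x - ψ 0) =O[𝓝 0] fun x => x - 0 :=
      hψa.differentiableAt.isBigO_sub
    have h2 : ψ =O[𝓝 0] fun x => x := by
      simpa [hψ0] using h1
    rw [hp]
    exact (h2.comp_tendsto hq0).trans hqO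
  have hp0 : Tendsto p (𝓝[>] 0) (𝓝 0) := tendsto_of_isBigO hpO
  have hχp : ∀ᶠ ν : ℝ in 𝓝[>] 0, χ (p ν) = q ν := by
    rw [hp]
    exact hq0.eventually hχψ
  -- the second curve
  obtain ⟨e, he⟩ : ∃ e : ℝ → Fin 3 → ℂ, e = fun ν : ℝ => Pi.single 2 ((ν : ℂ) ^ 9) := ⟨_, rfl⟩
  have heO : e =O[𝓝[>] 0] fun ν : ℝ => ν ^ 9 := by
    rw [isBigO_pi]
    intro i
    rw [he]
    by_cases hi : i = 2
    · subst hi
      simpa using cast_pow_isBigO 9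
    · simp only [Pi.single_apply, if_neg hi]
      exact isBigO_zero _ _
  obtain ⟨p', hp'⟩ : ∃ p' : ℝ → Fin 3 → ℂ, p' = fun ν => p ν + e ν := ⟨_, rfl⟩
  have hpO' : p' =O[𝓝[>] 0] fun ν : ℝ => ν ^ 2 := by
    rw [hp']
    exact hpO.add (heO.trans (pow_isBigO (by norm_num)))
  have hp0' : Tendsto p' (𝓝[>] 0) (𝓝 0) := tendsto_of_isBigO hpO'
  have hdiff : (fun ν => χ (p' ν) - χ (p ν)) =O[𝓝[>] 0] fun ν : ℝ => ν ^ 9 := by
    have h1 := (hχa.hasStrictFDerivAt).isBigO_sub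
    have h2 : Tendsto (fun ν => (p' ν, p ν)) (𝓝[>] 0) (𝓝 ((0 : Fin 3 → ℂ), (0 : Fin 3 → ℂ))) :=
      hp0'.prodMk_nhds hp0
    have h3 := h1.comp_tendsto h2
    refine (h3.congr_right (g₂ := e) fun ν => ?_).trans heO
    simp [hp']
  -- values of `M`
  have hMgen : ∀ w : ℝ → Fin 3 → ℂ, w =O[𝓝[>] 0] (fun ν : ℝ => ν ^ 2) →
      (fun ν => G30 b d (χ (w ν))) =O[𝓝[>] 0] (fun ν : ℝ => ν ^ 18) →
      (fun ν => nf c Q R (w ν)) =O[𝓝[>] 0] fun ν : ℝ => ν ^ 18 := by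
    intro w hw hG
    have h1 := hM.comp_tendsto (tendsto_of_isBigO hw)
    have h2 : (fun ν => ‖w ν‖ ^ 10) =O[𝓝[>] 0] fun ν : ℝ => ν ^ 18 := by
      have h3 := (hw.norm_left.pow 10)
      refine (h3.congr_right (g₂ := fun ν : ℝ => ν ^ 20) fun ν => ?_).trans
        (pow_isBigO (by norm_num))
      ring
    have h4 : (fun ν => nf c Q R (w ν) - G30 b d (χ (w ν))) =O[𝓝[>] 0]
        fun ν : ℝ => ν ^ 18 := IsBigO.trans h1 h2
    refine (h4.add hG).congr_left fun ν => ?_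
    ring
  have hq0c : (fun ν => q ν 0) =O[𝓝[>] 0] fun ν : ℝ => ν ^ 6 := by
    rw [hq]
    exact const_mul_pow_isBigO a 6
  have hq1c : (fun ν => q ν 1) =O[𝓝[>] 0] fun ν : ℝ => ν ^ 2 := by
    rw [hq]
    exact cast_pow_isBigO 2
  have hq2c : (fun ν => q ν 2) =O[𝓝[>] 0] fun ν : ℝ => ν ^ 9 := by
    rw [hq]
    exact isBigO_zero _ _
  have hMp : (fun ν => nf c Q R (p ν)) =O[𝓝[>] 0] fun ν : ℝ => ν ^ 18 := by
    refine hMgen p hpO ((G30_isBigO b d hq0c hq1c hq2c).congr' ?_ (EventuallyEq.refl _ _))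
    filter_upwards [hχp] with ν hν
    rw [hν]
  have hcoord : ∀ i : Fin 3, ∀ m : ℕ, m ≤ 9 →
      (fun ν => q ν i) =O[𝓝[>] 0] (fun ν : ℝ => ν ^ m) →
      (fun ν => χ (p' ν) i) =O[𝓝[>] 0] fun ν : ℝ => ν ^ m := by
    intro i m hm hqi
    have h1 := (coord_isBigO hdiff i).trans (pow_isBigO hm)
    refine (h1.add hqi).congr' ?_ (EventuallyEq.refl _ _)
    filter_upwards [hχp] with ν hν
    rw [← hν]
    simp
  have hMp' : (fun ν => nf c Q R (p' ν)) =O[𝓝[>] 0] fun ν : ℝ => ν ^ 18 :=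
    hMgen p' hpO' (G30_isBigO b d (hcoord 0 6 (by norm_num) hq0c)
      (hcoord 1 2 (by norm_num) hq1c) (hcoord 2 9 (by norm_num) hq2c))
  -- the linear term
  obtain ⟨L, hL⟩ : ∃ L : ℝ → ℂ, L = fun ν =>
    2 * (p ν 1 + c) * p ν 2 + Q.evalEval (p ν 1) (p ν 0) := ⟨_, rfl⟩
  have hp1 : (fun ν => p ν 1 + c) =O[𝓝[>] 0] fun _ : ℝ => (1 : ℝ) := by
    have h1 : Tendsto (fun ν => p ν 1 + c) (𝓝[>] 0) (𝓝 (0 + c)) :=
      ((tendsto_pi_nhds.1 hp0) 1).add_const c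
    exact h1.isBigO_one ℝ
  have hid : ∀ ν : ℝ, (ν : ℂ) ^ 9 * L ν =
      nf c Q R (p' ν) - nf c Q R (p ν) - (ν : ℂ) ^ 18 * (p ν 1 + c) := by
    intro ν
    have f0 : p' ν 0 = p ν 0 := by rw [hp', he]; simp
    have f1 : p' ν 1 = p ν 1 := by rw [hp', he]; simp
    have f2 : p' ν 2 = p ν 2 + (ν : ℂ) ^ 9 := by rw [hp', he]; simp
    rw [hL]
    unfold nf
    rw [f0, f1, f2]
    ring
  have hLO' : (fun ν : ℝ => (ν : ℂ) ^ 9 * L ν) =O[𝓝[>] 0] fun ν : ℝ => ν ^ 18 := by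
    have h1 : (fun ν : ℝ => (ν : ℂ) ^ 18 * (p ν 1 + c)) =O[𝓝[>] 0] fun ν : ℝ => ν ^ 18 := by
      refine ((cast_pow_isBigO 18).mul hp1).congr_right fun ν => ?_
      ring
    refine ((hMp'.sub hMp).sub h1).congr_left fun ν => ?_
    rw [hid ν]
  have hLO : L =O[𝓝[>] 0] fun ν : ℝ => ν ^ 9 := by
    obtain ⟨C, hC⟩ := hLO'.bound
    refine IsBigO.of_bound C ?_
    filter_upwards [hC, self_mem_nhdsWithin] with ν hν hpos
    have hpos' : (0 : ℝ) < ν := hpos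
    rw [norm_mul, norm_pow, Complex.norm_real, norm_pow, Real.norm_eq_abs, abs_of_pos hpos'] at hν
    rw [norm_pow, Real.norm_eq_abs, abs_of_pos hpos']
    have h9 : 0 < ν ^ 9 := pow_pos hpos' 9
    have : ν ^ 9 * ‖L ν‖ ≤ ν ^ 9 * (C * ν ^ 9) := by
      calc ν ^ 9 * ‖L ν‖ ≤ C * ν ^ 18 := hν
        _ = ν ^ 9 * (C * ν ^ 9) := by ring
    exact le_of_mul_le_mul_left this h9
  -- the discriminant
  have hW : ∀ ν : ℝ, (ww c Q R).evalEval (ψ (qq a ν) 1) (ψ (qq a ν) 0) =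
      L ν ^ 2 - 4 * ((p ν 1 + c) * nf c Q R (p ν)) := by
    intro ν
    rw [ww_eval]
    have f : ψ (qq a ν) = p ν := by rw [hp, hq]
    rw [f, hL]
    unfold nf
    ring
  have h1 : (fun ν => L ν ^ 2) =O[𝓝[>] 0] fun ν : ℝ => ν ^ 18 := by
    refine (hLO.pow 2).congr_right fun ν => ?_
    ring
  have h2 : (fun ν => 4 * ((p ν 1 + c) * nf c Q R (p ν))) =O[𝓝[>] 0] fun ν : ℝ => ν ^ 18 := by
    refine ((hp1.mul hMp).const_mul_left 4).congr_right fun ν => ?_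
    ring
  refine (h1.sub h2).congr_left fun ν => ?_
  rw [hW ν]

end Pool.Agent.H7.LU
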