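import Pool.Agent.H15.LU.Targets

/-!
# MP_812e67_ag, module RAT: the ratios of the critical values are bi-Lipschitz invariants
-/

set_option autoImplicit false

namespace Pool.Agent.H7.LU

open Pool.Agent.H15.LU Filter Topology Asymptotics

/-- the polar curve with the parameter `u` -/
noncomputable def pc (u y : ℂ) : Fin 3 → ℂ := ![u * y ^ 2, y, -(u ^ 2 / 2) * y ^ 3]

lemma pc_zero (u y : ℂ) : pc u y 0 = u * y ^ 2 := rfl
lemma pc_one (u y : ℂ) : pc u y 1 = y := rfl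
lemma pc_two (u y : ℂ) : pc u y 2 = -(u ^ 2 / 2) * y ^ 3 := rfl

lemma dx_pc {a u : ℂ} (hu : Root a u) (y : ℂ) : dx a (pc u y) = 0 := by
  unfold dx Root at *
  rw [pc_zero, pc_one, pc_two]
  linear_combination (-y ^ 5) * hu

lemma dz_pc (u y : ℂ) : dz (pc u y) = 0 := by
  unfold dz
  rw [pc_zero, pc_one, pc_two]
  ring

lemma dy_pc {a u : ℂ} (c : ℂ) (hu : Root a u) (y : ℂ) :
    dy a c (pc u y) = 7 * val a c u * y ^ 6 := by
  unfold dy val Root at *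
  rw [pc_zero, pc_one, pc_two]
  linear_combination (u / 4 * y ^ 6) * hu

lemma fam_pc {a u : ℂ} (c : ℂ) (hu : Root a u) (y : ℂ) :
    fam a c (pc u y) = y ^ 7 * val a c u := by
  unfold fam val Root at *
  rw [pc_zero, pc_one, pc_two]
  linear_combination (-u / 4 * y ^ 7) * hu

lemma norm_le_pc (u y : ℂ) : ‖y‖ ≤ ‖pc u y‖ := norm_le_pi_norm (pc u y) 1

lemma grad_pc (h2 : T_GRN) {a u : ℂ} (c : ℂ) (hu : Root a u) (y : ℂ) :
    ‖grad a c (pc u y)‖ ≤ 7 * ‖val a c u‖ * ‖pc u y‖ ^ 6 := by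
  have h := (h2 a c (pc u y)).2.2.2
  rw [dx_pc hu, dz_pc, dy_pc c hu, norm_zero, zero_add, add_zero, norm_mul, norm_mul,
    norm_pow] at h
  have h7 : ‖(7 : ℂ)‖ = 7 := by simp
  rw [h7] at h
  refine h.trans ?_
  have := pow_le_pow_left₀ (norm_nonneg y) (norm_le_pc u y) 6
  exact mul_le_mul_of_nonneg_left this (by positivity)

lemma tendsto_pc {y : ℕ → ℂ} (hy : Tendsto y atTop (𝓝 0)) (u : ℂ) :
    Tendsto (fun n => pc u (y n)) atTop (𝓝 0) := by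
  rw [tendsto_pi_nhds]
  intro i
  fin_cases i
  · have : Tendsto (fun n => u * y n ^ 2) atTop (𝓝 (u * 0 ^ 2)) := (hy.pow 2).const_mul u
    rw [zero_pow (by norm_num), mul_zero] at this
    exact this
  · exact hy
  · have : Tendsto (fun n => -(u ^ 2 / 2) * y n ^ 3) atTop (𝓝 (-(u ^ 2 / 2) * 0 ^ 3)) :=
      (hy.pow 3).const_mul _
    rw [zero_pow (by norm_num), mul_zero] at this
    exact this

/-- difference of two polar curves -/
lemma pc_sub (u v y : ℂ) (hy : ‖y‖ ≤ 1) :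
    ‖pc u y - pc v y‖ ≤ (‖u - v‖ + ‖u ^ 2 - v ^ 2‖) * ‖y‖ ^ 2 := by
  rw [pi_norm_le_iff_of_nonneg (by positivity)]
  have h0 : 0 ≤ ‖u - v‖ := norm_nonneg _
  have h1 : 0 ≤ ‖u ^ 2 - v ^ 2‖ := norm_nonneg _
  have h2 : 0 ≤ ‖y‖ := norm_nonneg _
  have h3 : 0 ≤ ‖y‖ ^ 2 := by positivity
  intro i
  fin_cases i
  · show ‖u * y ^ 2 - v * y ^ 2‖ ≤ _
    rw [← sub_mul, norm_mul, norm_pow]
    nlinarith
  · show ‖y - y‖ ≤ _
    rw [sub_self, norm_zero]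
    positivity
  · show ‖-(u ^ 2 / 2) * y ^ 3 - -(v ^ 2 / 2) * y ^ 3‖ ≤ _
    have e : -(u ^ 2 / 2) * y ^ 3 - -(v ^ 2 / 2) * y ^ 3 = -(u ^ 2 - v ^ 2) * (1 / 2) * y ^ 3 := by
      ring
    rw [e, norm_mul, norm_mul, norm_neg, norm_pow]
    have h4 : ‖(1 / 2 : ℂ)‖ = 1 / 2 := by simp
    rw [h4]
    have h5 : ‖y‖ ^ 3 ≤ ‖y‖ ^ 2 := pow_le_pow_of_le_one h2 hy (by norm_num)
    nlinarith [mul_nonneg h1 h3, mul_nonneg h0 h3, mul_le_mul_of_nonneg_left h5 h1]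

/-- Along a subsequence, the image of a polar curve has the asymptotics of a polar curve. -/
lemma one_curve (h1 : T_GRD) (h2 : T_GRN) (h4 : T_LCB) (h5 : T_VAL) {a c a' c' : ℂ}
    (hs : Small a c) (hs' : Small a' c') {φ : (Fin 3 → ℂ) → Fin 3 → ℂ} {K δ : ℝ} (hK : 0 < K)
    (hδ : 0 < δ) (hφ0 : φ 0 = 0)
    (hφ : ∀ p q, ‖p‖ < δ → ‖q‖ < δ →
      ‖φ p - φ q‖ ≤ K * ‖p - q‖ ∧ ‖p - q‖ ≤ K * ‖φ p - φ q‖)
    (hfg : ∀ p, ‖p‖ < δ → fam a c p = fam a' c' (φ p))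
    (hgr : ∀ p, ‖p‖ < δ → ∀ A B : (Fin 3 → ℂ) →L[ℂ] ℂ, HasFDerivAt (fam a c) A p →
      HasFDerivAt (fam a' c') B (φ p) → ‖B‖ ≤ K * ‖A‖) {u : ℂ} (hu : Root a u)
    {y : ℕ → ℂ} (hy0 : ∀ n, y n ≠ 0) (hy : Tendsto y atTop (𝓝 0)) (hyδ : ∀ n, ‖pc u (y n)‖ < δ) :
    ∃ (s : ℕ → ℕ) (w : ℂ) (D : ℝ), StrictMono s ∧ Root a' w ∧
      (∀ n, ‖φ (pc u (y (s n)))‖ ≤ D * ‖φ (pc u (y (s n))) 1‖) ∧
      Tendsto (fun n => (y (s n) / φ (pc u (y (s n))) 1) ^ 7 * val a c u) atTop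
        (𝓝 (val a' c' w)) := by
  have hφb : ∀ p, ‖p‖ < δ → ‖φ p‖ ≤ K * ‖p‖ ∧ ‖p‖ ≤ K * ‖φ p‖ := by
    intro p hp
    have := hφ p 0 hp (by rw [norm_zero]; exact hδ)
    rw [hφ0, sub_zero, sub_zero] at this
    exact this
  have hval : 0 < ‖val a c u‖ := by
    have := (h5 a c hs).1 u hu
    linarith
  obtain ⟨s, w, D, g1, g2, g3, g4⟩ := h4 a' c' (K * (7 * ‖val a c u‖) * K ^ 6)
    (fun n => φ (pc u (y n))) hs' (by positivity) (by
      have h6 : Tendsto (fun n => K * ‖pc u (y n)‖) atTop (𝓝 (K * 0)) := by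
        have := (tendsto_pc hy u).norm
        rw [norm_zero] at this
        exact this.const_mul K
      rw [mul_zero] at h6
      exact squeeze_zero_norm (fun n => (hφb _ (hyδ n)).1) h6) (by
      intro n h0
      have h6 := (hφb _ (hyδ n)).2
      rw [h0, norm_zero, mul_zero] at h6
      have h7 := norm_le_pc u (y n)
      have h8 : 0 < ‖y n‖ := norm_pos_iff.2 (hy0 n)
      linarith) (by
      intro n
      have h6 := hgr _ (hyδ n) _ _ (h1 a c (pc u (y n))) (h1 a' c' (φ (pc u (y n))))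
      refine h6.trans ?_
      have h7 := grad_pc h2 c hu (y n)
      have h8 := (hφb _ (hyδ n)).2
      have h9 := pow_le_pow_left₀ (norm_nonneg _) h8 6
      calc K * ‖grad a c (pc u (y n))‖ ≤ K * (7 * ‖val a c u‖ * ‖pc u (y n)‖ ^ 6) :=
            mul_le_mul_of_nonneg_left h7 hK.le
        _ ≤ K * (7 * ‖val a c u‖ * (K * ‖φ (pc u (y n))‖) ^ 6) := by
            refine mul_le_mul_of_nonneg_left ?_ hK.le
            exact mul_le_mul_of_nonneg_left h9 (by positivity)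
        _ = K * (7 * ‖val a c u‖) * K ^ 6 * ‖φ (pc u (y n))‖ ^ 6 := by ring)
  refine ⟨s, w, D, g1, g2, g3, ?_⟩
  refine g4.congr fun n => ?_
  rw [← hfg _ (hyδ (s n)), fam_pc c hu, div_pow]
  ring

/-- Module RAT. -/
theorem pf_RAT (h1 : T_GRD) (h2 : T_GRN) (h3 : T_LIP) (h4 : T_LCB) (h5 : T_VAL) : T_RAT := by
  intro a c a' c' hs hs' hLE u₁ u₂ u₃ hR
  obtain ⟨r1, r2, r3, n12, n23, n13⟩ := hR
  obtain ⟨φ, K, δ, hK, hδ, hφ0, hφ, hfg, hgr⟩ := h3 _ _ hLE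
  -- the sequence
  obtain ⟨x, hx⟩ : ∃ x : ℕ → ℂ, x = fun n : ℕ => 1 / ((n : ℂ) + 1) := ⟨_, rfl⟩
  have hx0 : Tendsto x atTop (𝓝 0) := by
    rw [hx]
    exact tendsto_one_div_add_atTop_nhds_zero_nat
  have hxne : ∀ n, x n ≠ 0 := by
    intro n
    rw [hx]
    have : (n : ℂ) + 1 ≠ 0 := by exact_mod_cast Nat.succ_ne_zero n
    exact one_div_ne_zero this
  have hev : ∀ u : ℂ, ∀ᶠ n in atTop, ‖pc u (x n)‖ < δ := by
    intro u
    have h6 : Tendsto (fun n => ‖pc u (x n)‖) atTop (𝓝 0) := by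
      simpa using (tendsto_pc hx0 u).norm
    exact h6.eventually (gt_mem_nhds hδ)
  have hev1 : ∀ᶠ n in atTop, ‖x n‖ ≤ 1 := by
    have h6 : Tendsto (fun n => ‖x n‖) atTop (𝓝 0) := by simpa using hx0.norm
    exact (h6.eventually (gt_mem_nhds one_pos)).mono fun n hn => hn.le
  obtain ⟨N, hN⟩ := ((hev u₁).and ((hev u₂).and ((hev u₃).and hev1))).exists_forall_of_atTop
  obtain ⟨y, hy⟩ : ∃ y : ℕ → ℂ, y = fun n => x (n + N) := ⟨_, rfl⟩
  have hy0 : Tendsto y atTop (𝓝 0) := by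
    rw [hy]
    exact (tendsto_add_atTop_iff_nat N).2 hx0
  have hyne : ∀ n, y n ≠ 0 := fun n => by rw [hy]; exact hxne _
  have hyδ1 : ∀ n, ‖pc u₁ (y n)‖ < δ := fun n => by rw [hy]; exact (hN _ (by omega)).1
  have hyδ2 : ∀ n, ‖pc u₂ (y n)‖ < δ := fun n => by rw [hy]; exact (hN _ (by omega)).2.1
  have hyδ3 : ∀ n, ‖pc u₃ (y n)‖ < δ := fun n => by rw [hy]; exact (hN _ (by omega)).2.2.1
  have hy1 : ∀ n, ‖y n‖ ≤ 1 := fun n => by rw [hy]; exact (hN _ (by omega)).2.2.2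
  -- three subsequences
  obtain ⟨s1, w1, D1, e1, e2, e3, e4⟩ :=
    one_curve h1 h2 h4 h5 hs hs' hK hδ hφ0 hφ hfg hgr r1 hyne hy0 hyδ1
  obtain ⟨s2, w2, D2, f1, f2, f3, f4⟩ :=
    one_curve h1 h2 h4 h5 hs hs' hK hδ hφ0 hφ hfg hgr r2 (y := fun n => y (s1 n))
      (fun n => hyne _) (hy0.comp e1.tendsto_atTop) (fun n => hyδ2 _)
  obtain ⟨s3, w3, D3, g1, g2, g3, g4⟩ :=
    one_curve h1 h2 h4 h5 hs hs' hK hδ hφ0 hφ hfg hgr r3 (y := fun n => y (s1 (s2 n)))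
      (fun n => hyne _) ((hy0.comp e1.tendsto_atTop).comp f1.tendsto_atTop) (fun n => hyδ3 _)
  obtain ⟨t, ht⟩ : ∃ t : ℕ → ℂ, t = fun n => y (s1 (s2 (s3 n))) := ⟨_, rfl⟩
  have ht0 : Tendsto t atTop (𝓝 0) := by
    rw [ht]
    exact ((hy0.comp e1.tendsto_atTop).comp f1.tendsto_atTop).comp g1.tendsto_atTop
  have htne : ∀ n, t n ≠ 0 := fun n => by rw [ht]; exact hyne _
  have ht1 : ∀ n, ‖t n‖ ≤ 1 := fun n => by rw [ht]; exact hy1 _
  have b1 : ∀ n, ‖φ (pc u₁ (t n))‖ ≤ D1 * ‖φ (pc u₁ (t n)) 1‖ := fun n => by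
    rw [ht]; exact e3 _
  have b2 : ∀ n, ‖φ (pc u₂ (t n))‖ ≤ D2 * ‖φ (pc u₂ (t n)) 1‖ := fun n => by
    rw [ht]; exact f3 _
  have b3 : ∀ n, ‖φ (pc u₃ (t n))‖ ≤ D3 * ‖φ (pc u₃ (t n)) 1‖ := fun n => by
    rw [ht]; exact g3 _
  have l1 : Tendsto (fun n => (t n / φ (pc u₁ (t n)) 1) ^ 7 * val a c u₁) atTop
      (𝓝 (val a' c' w1)) := by
    rw [ht]
    exact (e4.comp f1.tendsto_atTop).comp g1.tendsto_atTop
  have l2 : Tendsto (fun n => (t n / φ (pc u₂ (t n)) 1) ^ 7 * val a c u₂) atTop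
      (𝓝 (val a' c' w2)) := by
    rw [ht]
    exact f4.comp g1.tendsto_atTop
  have l3 : Tendsto (fun n => (t n / φ (pc u₃ (t n)) 1) ^ 7 * val a c u₃) atTop
      (𝓝 (val a' c' w3)) := by
    rw [ht]
    exact g4
  have hδ1 : ∀ n, ‖pc u₁ (t n)‖ < δ := fun n => by rw [ht]; exact hyδ1 _
  have hδ2 : ∀ n, ‖pc u₂ (t n)‖ < δ := fun n => by rw [ht]; exact hyδ2 _
  have hδ3 : ∀ n, ‖pc u₃ (t n)‖ < δ := fun n => by rw [ht]; exact hyδ3 _
  have hv : ∀ u, Root a u → val a c u ≠ 0 := by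
    intro u hu h0
    have := (h5 a c hs).1 u hu
    rw [h0, norm_zero] at this
    linarith
  have hv' : ∀ u, Root a' u → val a' c' u ≠ 0 := by
    intro u hu h0
    have := (h5 a' c' hs').1 u hu
    rw [h0, norm_zero] at this
    linarith
  -- comparison of two curves
  have key : ∀ u v w w' : ℂ, ∀ D D' : ℝ, Root a u → Root a v →
      (∀ n, ‖pc u (t n)‖ < δ) → (∀ n, ‖pc v (t n)‖ < δ) →
      (∀ n, ‖φ (pc u (t n))‖ ≤ D * ‖φ (pc u (t n)) 1‖) →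
      (∀ n, ‖φ (pc v (t n))‖ ≤ D' * ‖φ (pc v (t n)) 1‖) →
      Tendsto (fun n => (t n / φ (pc u (t n)) 1) ^ 7 * val a c u) atTop (𝓝 (val a' c' w)) →
      Tendsto (fun n => (t n / φ (pc v (t n)) 1) ^ 7 * val a c v) atTop (𝓝 (val a' c' w')) →
      val a' c' w' = val a' c' w / val a c u * val a c v := by
    intro u v w w' D D' hu hvr hδu hδv hD hD' hl hl'
    obtain ⟨Y, hY⟩ : ∃ Y : ℕ → ℂ, Y = fun n => φ (pc u (t n)) 1 := ⟨_, rfl⟩
    obtain ⟨Z, hZ⟩ : ∃ Z : ℕ → ℂ, Z = fun n => φ (pc v (t n)) 1 := ⟨_, rfl⟩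
    have hlow : ∀ (z : ℂ) (E : ℝ), (∀ n, ‖pc z (t n)‖ < δ) →
        (∀ n, ‖φ (pc z (t n))‖ ≤ E * ‖φ (pc z (t n)) 1‖) →
        ∀ n, ‖t n‖ ≤ K * E * ‖φ (pc z (t n)) 1‖ := by
      intro z E hz hE n
      have h6 := hφ (pc z (t n)) 0 (hz n) (by rw [norm_zero]; exact hδ)
      rw [hφ0, sub_zero, sub_zero] at h6
      have h7 := norm_le_pc z (t n)
      have h8 := mul_le_mul_of_nonneg_left (hE n) hK.le
      rw [mul_assoc]
      linarith [h6.2]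
    have hlu := hlow u D hδu hD
    have hlv := hlow v D' hδv hD'
    have hYne : ∀ n, Y n ≠ 0 := by
      intro n h0
      have h6 := hlu n
      rw [hY] at h0
      simp only at h0
      rw [h0, norm_zero, mul_zero] at h6
      have := norm_pos_iff.2 (htne n)
      linarith
    have hZne : ∀ n, Z n ≠ 0 := by
      intro n h0
      have h6 := hlv n
      rw [hZ] at h0
      simp only at h0
      rw [h0, norm_zero, mul_zero] at h6
      have := norm_pos_iff.2 (htne n)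
      linarith
    -- `Y / Z → 1`
    obtain ⟨M, hM⟩ : ∃ M : ℝ, M = K * (‖u - v‖ + ‖u ^ 2 - v ^ 2‖) := ⟨_, rfl⟩
    have hM0 : 0 ≤ M := by rw [hM]; positivity
    have hdiff : ∀ n, ‖Y n - Z n‖ ≤ M * ‖t n‖ ^ 2 := by
      intro n
      have h6 : ‖Y n - Z n‖ ≤ ‖φ (pc u (t n)) - φ (pc v (t n))‖ := by
        rw [hY, hZ]
        exact norm_le_pi_norm (φ (pc u (t n)) - φ (pc v (t n))) 1
      have h7 := (hφ _ _ (hδu n) (hδv n)).1
      have h8 := mul_le_mul_of_nonneg_left (pc_sub u v (t n) (ht1 n)) hK.le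
      rw [hM, mul_assoc]
      linarith
    have hratio : Tendsto (fun n => Y n / Z n) atTop (𝓝 1) := by
      rw [tendsto_iff_norm_sub_tendsto_zero]
      have h6 : Tendsto (fun n => M * (K * D') * ‖t n‖) atTop (𝓝 0) := by
        have := (ht0.norm).const_mul (M * (K * D'))
        simpa using this
      refine squeeze_zero (fun n => norm_nonneg _) (fun n => ?_) h6
      have hZp : 0 < ‖Z n‖ := norm_pos_iff.2 (hZne n)
      have e : Y n / Z n - 1 = (Y n - Z n) / Z n := by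
        field_simp [hZne n]
      rw [e, norm_div, div_le_iff₀ hZp]
      have h7 : ‖t n‖ ≤ K * D' * ‖Z n‖ := by rw [hZ]; exact hlv n
      have h8 : 0 ≤ M * ‖t n‖ := by positivity
      calc ‖Y n - Z n‖ ≤ M * ‖t n‖ ^ 2 := hdiff n
        _ = M * ‖t n‖ * ‖t n‖ := by ring
        _ ≤ M * ‖t n‖ * (K * D' * ‖Z n‖) := mul_le_mul_of_nonneg_left h7 h8
        _ = M * (K * D') * ‖t n‖ * ‖Z n‖ := by ring
    have hlim : Tendsto (fun n => (t n / Z n) ^ 7 * val a c v) atTop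
        (𝓝 (val a' c' w / val a c u * 1 ^ 7 * val a c v)) := by
      have h6 := ((hl.div_const (val a c u)).mul (hratio.pow 7)).mul_const (val a c v)
      refine h6.congr fun n => ?_
      have e1 : φ (pc u (t n)) 1 = Y n := by rw [hY]
      rw [e1]
      have e2 := hYne n
      have e3 := hZne n
      have e4 := hv u hu
      field_simp
    have hl'' : Tendsto (fun n => (t n / Z n) ^ 7 * val a c v) atTop (𝓝 (val a' c' w')) := by
      rw [hZ]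
      exact hl'
    have := tendsto_nhds_unique hl'' hlim
    rw [this]
    ring
  have k12 := key u₁ u₂ w1 w2 D1 D2 r1 r2 hδ1 hδ2 b1 b2 l1 l2
  have k13 := key u₁ u₃ w1 w3 D1 D3 r1 r3 hδ1 hδ3 b1 b3 l1 l3
  have hκ : val a' c' w1 / val a c u₁ ≠ 0 := div_ne_zero (hv' w1 e2) (hv u₁ r1)
  have k11 : val a' c' w1 = val a' c' w1 / val a c u₁ * val a c u₁ := by
    rw [div_mul_cancel₀ _ (hv u₁ r1)]
  refine ⟨val a' c' w1 / val a c u₁, w1, w2, w3, ⟨e2, f2, g2, ?_, ?_, ?_⟩, k11, k12, k13⟩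
  · intro h
    apply (h5 a c hs).2 u₁ u₂ r1 r2 n12
    apply mul_left_cancel₀ hκ
    rw [← k11, ← k12, h]
  · intro h
    apply (h5 a c hs).2 u₂ u₃ r2 r3 n23
    apply mul_left_cancel₀ hκ
    rw [← k12, ← k13, h]
  · intro h
    apply (h5 a c hs).2 u₁ u₃ r1 r3 n13
    apply mul_left_cancel₀ hκ
    rw [← k11, ← k13, h]

end Pool.Agent.H7.LU
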